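import Pool.Agent.W805.LR.Stm2

/-!
# LR2-EL2: parameters of the levels, second version
-/

set_option autoImplicit false

namespace Pool.Agent.W358.LR.EL2

open Pool.Agent.W805.LR

noncomputable section

lemma exp_neg_le_inv {x : ℝ} (hx : 0 < x) : Real.exp (-x) ≤ 1 / x := by
  rw [Real.exp_neg, ← one_div]
  exact one_div_le_one_div_of_le hx (by have := Real.add_one_le_exp x; linarith)

lemma geo_sum {r : ℝ} (h0 : 0 ≤ r) (h1 : r < 1) (I : ℕ) :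
    ∑ j ∈ Finset.range I, r ^ j ≤ 1 / (1 - r) := by
  calc ∑ j ∈ Finset.range I, r ^ j ≤ ∑' j : ℕ, r ^ j :=
        (summable_geometric_of_lt_one h0 h1).sum_le_tsum _ (fun j _ => pow_nonneg h0 _)
    _ = 1 / (1 - r) := by rw [tsum_geometric_of_lt_one h0 h1, one_div]

lemma two_rpow_mono {a b : ℝ} (h : a ≤ b) : (2:ℝ) ^ a ≤ 2 ^ b :=
  Real.rpow_le_rpow_of_exponent_le (by norm_num) h

lemma two_pow_rpow (n : ℕ) (c : ℝ) : ((2:ℝ) ^ n) ^ c = (2:ℝ) ^ ((n:ℝ) * c) := by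
  rw [← Real.rpow_natCast, ← Real.rpow_mul (by norm_num)]

lemma lev1 {d : ℕ} (hd : 1 ≤ d) (k : ℕ) : (k : ℝ) / d ≤ ((k / d + 1 : ℕ) : ℝ) := by
  have hd' : (0:ℝ) < d := by exact_mod_cast hd
  rw [div_le_iff₀ hd']
  have h := Nat.lt_mul_div_succ k (show 0 < d by omega)
  have h2 : k ≤ (k / d + 1) * d := by rw [mul_comm]; exact h.le
  exact_mod_cast h2

lemma lev2 {d : ℕ} (k : ℕ) : ((k / d + 1 : ℕ) : ℝ) ≤ (k : ℝ) / d + 1 := by
  push_cast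
  have := @Nat.cast_div_le ℝ _ _ _ k d
  linarith

/-- The exponential term. -/
lemma expo {d : ℕ} {σ lam Θ Γ dl t l β : ℝ} (hd : 1 ≤ d) (h0 : 0 < σ)
    (hlam : 0 < lam) (hΘ : 1 ≤ Θ) (hΓ : 0 < Γ) (hdl : 0 < dl) (ht : 0 < t) (hl : 1 ≤ l)
    (htΓ : Γ ≤ t * (lam / 4) * l ^ (-σ) / 2 ^ d) (a : ℝ) (ha : (a - σ) / d = 2 * β) (k : ℕ) :
    Real.exp (-(t * (lam / 4 * (l * 2 ^ (k / d + 1)) ^ (-((d : ℝ) + σ)) / d) *
      2 ^ ((k : ℝ) * (a / d)) * (dl * 2 ^ (-(β * k))) *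
      (l * 2 ^ (k / d + 1) / 2) ^ d / (16 * Θ))) ≤
      16 * d * Θ * 2 ^ σ / (Γ * dl) * 2 ^ (-(β * k)) := by
  have hd' : (0:ℝ) < d := by exact_mod_cast hd
  have hl0 : 0 < l := by linarith
  have hΘ0 : 0 < Θ := by linarith
  set y : ℝ := 2 ^ (k / d + 1) with hy
  have hy0 : 0 < y := by positivity
  have hb0 : 0 < l * y := by positivity
  have hyσ : (2:ℝ) ^ (-σ) * 2 ^ (-((k:ℝ) / d * σ)) ≤ y ^ (-σ) := by
    rw [hy, two_pow_rpow, ← Real.rpow_add (by norm_num)]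
    apply two_rpow_mono
    have := lev2 (d := d) k
    nlinarith
  have e1 : (l * y) ^ (-((d : ℝ) + σ)) * (l * y / 2) ^ d = l ^ (-σ) * y ^ (-σ) / 2 ^ d := by
    rw [← Real.mul_rpow hl0.le hy0.le, neg_add, Real.rpow_add hb0, Real.rpow_neg hb0.le (d : ℝ),
      Real.rpow_natCast, div_pow]
    field_simp
  have e2 : t * (lam / 4 * (l * y) ^ (-((d : ℝ) + σ)) / d) *
      2 ^ ((k : ℝ) * (a / d)) * (dl * 2 ^ (-(β * k))) * (l * y / 2) ^ d / (16 * Θ) =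
      (t * (lam / 4) * l ^ (-σ) / 2 ^ d) * (y ^ (-σ) * 2 ^ ((k : ℝ) * (a / d)) *
        (dl * 2 ^ (-(β * k))) / (16 * d * Θ)) := by
    calc _ = (t * lam / 4) * ((l * y) ^ (-((d : ℝ) + σ)) * (l * y / 2) ^ d) / d *
          2 ^ ((k : ℝ) * (a / d)) * (dl * 2 ^ (-(β * k))) / (16 * Θ) := by ring
      _ = _ := by rw [e1]; ring
  have e3 : Γ * dl / (16 * d * Θ * 2 ^ σ) * 2 ^ (β * k) =
      Γ * ((2:ℝ) ^ (-σ) * 2 ^ (-((k:ℝ) / d * σ)) * 2 ^ ((k : ℝ) * (a / d)) *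
        (dl * 2 ^ (-(β * k))) / (16 * d * Θ)) := by
    have h1 : (2:ℝ) ^ (β * k) = 2 ^ (-((k:ℝ) / d * σ)) * 2 ^ ((k : ℝ) * (a / d)) *
        2 ^ (-(β * k)) := by
      rw [← Real.rpow_add (by norm_num), ← Real.rpow_add (by norm_num)]
      congr 1
      have h2 : -((k:ℝ) / d * σ) + (k : ℝ) * (a / d) = k * ((a - σ) / d) := by ring
      rw [h2, ha]
      ring
    rw [h1, Real.rpow_neg (by norm_num) σ]
    have : (2:ℝ) ^ σ ≠ 0 := (Real.rpow_pos_of_pos (by norm_num) _).ne'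
    field_simp
  have hx : Γ * dl / (16 * d * Θ * 2 ^ σ) * 2 ^ (β * k) ≤
      t * (lam / 4 * (l * y) ^ (-((d : ℝ) + σ)) / d) *
      2 ^ ((k : ℝ) * (a / d)) * (dl * 2 ^ (-(β * k))) * (l * y / 2) ^ d / (16 * Θ) := by
    rw [e2, e3]
    gcongr
  have hpos : 0 < Γ * dl / (16 * d * Θ * 2 ^ σ) * 2 ^ (β * k) := by positivity
  refine (exp_neg_le_inv (lt_of_lt_of_le hpos hx)).trans ?_
  refine (one_div_le_one_div_of_le hpos hx).trans (le_of_eq ?_)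
  rw [Real.rpow_neg (by norm_num) (β * k)]
  have : (2:ℝ) ^ (β * k) ≠ 0 := (Real.rpow_pos_of_pos (by norm_num) _).ne'
  field_simp

/-- The damage term. -/
lemma damage {d : ℕ} {σ lam Θ Γ t l β : ℝ} (hd : 1 ≤ d) (h0 : 0 < σ)
    (hlam : 0 < lam) (hΘ : 1 ≤ Θ) (hΓ : 0 < Γ) (ht : 0 < t) (hl : 1 ≤ l) (hβ : 0 < β)
    (htΓ : t * (lam / 4) * l ^ (-σ) / 2 ^ d ≤ 2 ^ d * Γ) (a : ℝ)
    (ha : ((d:ℝ) + σ - 2 * a) / d = 4 * β) (had : a ≤ d) (k : ℕ) :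
    4 * Θ * (t * (lam / 4 * (l * 2 ^ (k / d + 1)) ^ (-((d : ℝ) + σ)) / d)) *
      (2 ^ (((k : ℝ) + 1) * (a / d))) ^ 2 ≤
      16 * Θ * 4 ^ d * Γ / l * 2 ^ (-(β * k)) := by
  have hd1 : (1:ℝ) ≤ d := by exact_mod_cast hd
  have hd' : (0:ℝ) < d := by linarith
  have hl0 : 0 < l := by linarith
  have hΘ0 : 0 < Θ := by linarith
  set y : ℝ := 2 ^ (k / d + 1) with hy
  have hy0 : 0 < y := by positivity
  have hyσ : y ^ (-((d : ℝ) + σ)) ≤ 2 ^ (-((k:ℝ) / d * (d + σ))) := by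
    rw [hy, two_pow_rpow]
    apply two_rpow_mono
    have := lev1 hd k
    nlinarith
  have hG : t * (lam / 4) * l ^ (-((d : ℝ) + σ)) ≤ 4 ^ d * Γ / l := by
    have e1 : t * (lam / 4) * l ^ (-((d : ℝ) + σ)) =
        (t * (lam / 4) * l ^ (-σ) / 2 ^ d) * 2 ^ d / l ^ d := by
      rw [neg_add, Real.rpow_add hl0, Real.rpow_neg hl0.le (d : ℝ), Real.rpow_natCast]
      field_simp
    rw [e1]
    have hld : l ≤ l ^ d := by
      calc l = l ^ 1 := (pow_one l).symm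
        _ ≤ l ^ d := pow_le_pow_right₀ hl hd
    calc (t * (lam / 4) * l ^ (-σ) / 2 ^ d) * 2 ^ d / l ^ d
        ≤ (2 ^ d * Γ) * 2 ^ d / l ^ d := by gcongr
      _ ≤ (2 ^ d * Γ) * 2 ^ d / l := by gcongr
      _ = 4 ^ d * Γ / l := by
        rw [show (4:ℝ) = 2 * 2 by norm_num, mul_pow]; ring
  have hs : ((2:ℝ) ^ (((k : ℝ) + 1) * (a / d))) ^ 2 ≤ 4 * 2 ^ (2 * (k : ℝ) * (a / d)) := by
    have e1 : ((2:ℝ) ^ (((k : ℝ) + 1) * (a / d))) ^ 2 =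
        2 ^ (2 * (a / d)) * 2 ^ (2 * (k : ℝ) * (a / d)) := by
      rw [← Real.rpow_natCast, ← Real.rpow_mul (by norm_num), ← Real.rpow_add (by norm_num)]
      congr 1
      push_cast
      ring
    rw [e1]
    have e2 : (2:ℝ) ^ (2 * (a / d)) ≤ 4 := by
      calc (2:ℝ) ^ (2 * (a / d)) ≤ 2 ^ (2:ℝ) := by
            apply two_rpow_mono
            have : a / d ≤ 1 := by rw [div_le_one hd']; exact had
            linarith
        _ = 4 := by rw [Real.rpow_two]; norm_num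
    gcongr
  have hpr : (2:ℝ) ^ (-((k:ℝ) / d * (d + σ))) * 2 ^ (2 * (k : ℝ) * (a / d)) ≤ 2 ^ (-(β * k)) := by
    rw [← Real.rpow_add (by norm_num)]
    apply two_rpow_mono
    have h2 : -((k:ℝ) / d * (d + σ)) + 2 * (k : ℝ) * (a / d) = -(k * (((d:ℝ) + σ - 2 * a) / d)) := by
      ring
    rw [h2, ha]
    have : (0:ℝ) ≤ k := Nat.cast_nonneg k
    nlinarith
  have hp1 : 0 ≤ (2:ℝ) ^ (-((k:ℝ) / d * (d + σ))) := by positivity
  rw [Real.mul_rpow hl0.le hy0.le]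
  calc 4 * Θ * (t * (lam / 4 * (l ^ (-((d : ℝ) + σ)) * y ^ (-((d : ℝ) + σ))) / d)) *
      (2 ^ (((k : ℝ) + 1) * (a / d))) ^ 2
      = 4 * Θ / d * (t * (lam / 4) * l ^ (-((d : ℝ) + σ))) * y ^ (-((d : ℝ) + σ)) *
        (2 ^ (((k : ℝ) + 1) * (a / d))) ^ 2 := by ring
    _ ≤ 4 * Θ / d * (4 ^ d * Γ / l) * 2 ^ (-((k:ℝ) / d * (d + σ))) *
        (4 * 2 ^ (2 * (k : ℝ) * (a / d))) := by gcongr
    _ = (16 * Θ * 4 ^ d * Γ / l) / d * ((2:ℝ) ^ (-((k:ℝ) / d * (d + σ))) *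
        2 ^ (2 * (k : ℝ) * (a / d))) := by ring
    _ ≤ (16 * Θ * 4 ^ d * Γ / l) * 2 ^ (-(β * k)) := by
        have h3 : (16 * Θ * 4 ^ d * Γ / l) / d ≤ 16 * Θ * 4 ^ d * Γ / l :=
          div_le_self (by positivity) hd1
        gcongr

/-- base stage -/
lemma base {d : ℕ} {σ lam Θ Γ t l : ℝ} (hd : 1 ≤ d) (hlam : 0 < lam) (hΘ : 1 ≤ Θ) (hΓ : 0 < Γ)
    (ht : 0 < t) (hl : 2 ≤ l) (hG1 : Γ ≤ t * (lam / 4) * l ^ (-σ) / 2 ^ d)
    (hG2 : t * (lam / 4) * l ^ (-σ) / 2 ^ d ≤ 2 ^ d * Γ) :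
    baseErr2 d σ lam Θ t l 1 ≤ 8 * Θ / Γ + 40 * Θ ^ 2 / l + 2 * Θ * 4 ^ d * Γ / l := by
  have hl0 : 0 < l := by linarith
  have hΘ0 : 0 < Θ := by linarith
  set G := t * (lam / 4) * l ^ (-σ) / 2 ^ d with hG
  have hG0 : 0 < G := lt_of_lt_of_le hΓ hG1
  have e0 : t * (lam / 4 * l ^ (-((d : ℝ) + σ))) = G * 2 ^ d / l ^ d := by
    rw [hG, neg_add, Real.rpow_add hl0, Real.rpow_neg hl0.le (d : ℝ), Real.rpow_natCast]
    field_simp
  have e1 : t * (lam / 4 * l ^ (-((d : ℝ) + σ))) * (l / 2) ^ d = G := by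
    rw [e0, div_pow]
    field_simp
  have hld : l ≤ l ^ d := by
    calc l = l ^ 1 := (pow_one l).symm
      _ ≤ l ^ d := pow_le_pow_right₀ (by linarith) hd
  have hld2 : l / 2 ≤ (l / 2) ^ d := by
    calc l / 2 = (l / 2) ^ 1 := (pow_one _).symm
      _ ≤ _ := pow_le_pow_right₀ (by linarith) hd
  have hG' : t * (lam / 4 * l ^ (-((d : ℝ) + σ))) ≤ 4 ^ d * Γ / l := by
    rw [e0]
    calc G * 2 ^ d / l ^ d ≤ (2 ^ d * Γ) * 2 ^ d / l ^ d := by gcongr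
      _ ≤ (2 ^ d * Γ) * 2 ^ d / l := by gcongr
      _ = 4 ^ d * Γ / l := by
        rw [show (4:ℝ) = 2 * 2 by norm_num, mul_pow]; ring
  unfold baseErr2
  rw [e1]
  have e2 : 8 * Θ / G ≤ 8 * Θ / Γ := by gcongr
  have e3 : 20 * Θ ^ 2 * 1 / (l / 2) ^ d ≤ 40 * Θ ^ 2 / l := by
    calc 20 * Θ ^ 2 * 1 / (l / 2) ^ d ≤ 20 * Θ ^ 2 * 1 / (l / 2) := by gcongr
      _ = 40 * Θ ^ 2 / l := by field_simp; norm_num
  have e4 : 2 * Θ * (t * (lam / 4 * l ^ (-((d : ℝ) + σ)))) * 1 ^ 2 ≤ 2 * Θ * 4 ^ d * Γ / l := by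
    calc 2 * Θ * (t * (lam / 4 * l ^ (-((d : ℝ) + σ)))) * 1 ^ 2
        ≤ 2 * Θ * (4 ^ d * Γ / l) * 1 ^ 2 := by gcongr
      _ = 2 * Θ * 4 ^ d * Γ / l := by ring
  linarith

set_option maxHeartbeats 1600000 in
theorem main : S_levels2 := by
  intro d σ lam Θ η hd h0 h1 hlam hΘ hη
  have hd1 : (1:ℝ) ≤ d := by exact_mod_cast hd
  have hd' : (0:ℝ) < d := by linarith
  have hΘ0 : 0 < Θ := by linarith
  have hs : 0 < (d:ℝ) - σ := by linarith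
  obtain ⟨β, hβ⟩ : ∃ β : ℝ, β = ((d:ℝ) - σ) / (8 * d) := ⟨_, rfl⟩
  have hβ0 : 0 < β := by rw [hβ]; positivity
  have hβd : β * (8 * d) = d - σ := by rw [hβ]; field_simp
  obtain ⟨a, ha⟩ : ∃ a : ℝ, a = σ + ((d:ℝ) - σ) / 4 := ⟨_, rfl⟩
  have ha1 : (a - σ) / d = 2 * β := by
    rw [div_eq_iff hd'.ne', ha]; linarith
  have ha2 : ((d:ℝ) + σ - 2 * a) / d = 4 * β := by
    rw [div_eq_iff hd'.ne', ha]; linarith
  have had : a ≤ d := by rw [ha]; linarith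
  obtain ⟨r, hr⟩ : ∃ r : ℝ, r = (2:ℝ) ^ (-β) := ⟨_, rfl⟩
  have hr0 : 0 < r := by rw [hr]; exact Real.rpow_pos_of_pos (by norm_num) _
  have hr1 : r < 1 := by
    rw [hr]; exact Real.rpow_lt_one_of_one_lt_of_neg (by norm_num) (by linarith)
  have hrk : ∀ k : ℕ, (2:ℝ) ^ (-(β * k)) = r ^ k := by
    intro k
    rw [hr, ← Real.rpow_natCast, ← Real.rpow_mul (by norm_num)]
    congr 1
    ring
  obtain ⟨Q, hQ⟩ : ∃ Q : ℝ, Q = 1 / (1 - r) := ⟨_, rfl⟩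
  have hQ0 : 0 < Q := by rw [hQ]; exact one_div_pos.2 (by linarith)
  obtain ⟨dl, hdl⟩ : ∃ dl : ℝ, dl = min 1 (η / (6 * Q)) := ⟨_, rfl⟩
  have hdl0 : 0 < dl := by rw [hdl]; exact lt_min one_pos (by positivity)
  have hdl2 : 2 * dl ≤ η / (3 * Q) := by
    have : dl ≤ η / (6 * Q) := by rw [hdl]; exact min_le_right _ _
    calc 2 * dl ≤ 2 * (η / (6 * Q)) := by linarith
      _ = η / (3 * Q) := by field_simp; norm_num
  have h2σ : (0:ℝ) < 2 ^ σ := Real.rpow_pos_of_pos (by norm_num) _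
  obtain ⟨Γ, hΓ⟩ : ∃ Γ : ℝ, Γ = 48 * d * Θ * 2 ^ σ * Q / (dl * η) + 24 * Θ / η := ⟨_, rfl⟩
  have hΓ0 : 0 < Γ := by rw [hΓ]; positivity
  have hΓ1 : 16 * d * Θ * 2 ^ σ / (Γ * dl) ≤ η / (3 * Q) := by
    rw [div_le_div_iff₀ (by positivity) (by positivity)]
    have : η * (Γ * dl) = 48 * d * Θ * 2 ^ σ * Q + 24 * Θ * dl := by
      rw [hΓ]; field_simp
    rw [this]
    have : 0 < 24 * Θ * dl := by positivity
    linarith
  have hΓ2 : 8 * Θ / Γ ≤ η / 3 := by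
    rw [div_le_div_iff₀ hΓ0 (by norm_num)]
    have : η * Γ = 48 * d * Θ * 2 ^ σ * Q / dl + 24 * Θ := by
      rw [hΓ]; field_simp
    rw [this]
    have : 0 < 48 * d * Θ * 2 ^ σ * Q / dl := by positivity
    linarith
  obtain ⟨lmin, hlm⟩ : ∃ lmin : ℝ, lmin = max 4 (max (120 * Θ ^ 2 / η)
    (max (48 * Θ * 4 ^ d * Γ * Q / η) (max (6 * Θ * 4 ^ d * Γ / η) (2 * 2 ^ d / dl)))) := ⟨_, rfl⟩
  refine ⟨a, Γ, 1, lmin, fun k => dl * 2 ^ (-(β * k)), by rw [ha]; linarith, had, hΓ0, le_rfl, ?_,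
    fun j => by positivity, ?_⟩
  · rw [hlm]; exact le_trans (by norm_num) (le_max_left _ _)
  intro t l ht hl hG1 hG2
  rw [hlm] at hl
  have hl2 : 4 ≤ l := (le_max_left _ _).trans hl
  have hl3 : 120 * Θ ^ 2 / η ≤ l := ((le_max_left _ _).trans (le_max_right _ _)).trans hl
  have hl4 : 48 * Θ * 4 ^ d * Γ * Q / η ≤ l :=
    (((le_max_left _ _).trans (le_max_right _ _)).trans (le_max_right _ _)).trans hl
  have hl5 : 6 * Θ * 4 ^ d * Γ / η ≤ l := ((((le_max_left _ _).trans (le_max_right _ _)).trans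
    (le_max_right _ _)).trans (le_max_right _ _)).trans hl
  have hl6 : 2 * 2 ^ d / dl ≤ l := ((((le_max_right _ _).trans (le_max_right _ _)).trans
    (le_max_right _ _)).trans (le_max_right _ _)).trans hl
  have hl0 : 0 < l := by linarith
  have hl1' : 1 ≤ l := by linarith
  refine ⟨?_, ?_, ?_, ?_⟩
  · calc 2 * (1:ℝ) ≤ l / 2 := by linarith
      _ = (l / 2) ^ 1 := (pow_one _).symm
      _ ≤ (l / 2) ^ d := pow_le_pow_right₀ (by linarith) hd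
  · intro k
    simp only
    have e1 : (l * 2 ^ (k / d + 1) / 2) ^ d = l ^ d * 2 ^ (d * (k / d)) := by
      rw [pow_succ, ← mul_assoc, mul_div_assoc, div_self (by norm_num : (2:ℝ) ≠ 0), mul_one,
        mul_pow, ← pow_mul, mul_comm (k / d) d]
    have e2 : (2:ℝ) ^ ((k:ℝ) + 1) ≤ 2 ^ d * 2 ^ (d * (k / d)) := by
      have h2 : k + 1 ≤ d + d * (k / d) := by
        have := Nat.lt_mul_div_succ k (show 0 < d by omega)
        rw [mul_add, mul_one] at this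
        omega
      have h3 : (2:ℝ) ^ ((k:ℝ) + 1) = 2 ^ (k + 1) := by
        rw [← Real.rpow_natCast]
        push_cast
        rfl
      rw [h3, ← pow_add]
      exact pow_le_pow_right₀ (by norm_num) h2
    have e3 : l ≤ l ^ d := by
      calc l = l ^ 1 := (pow_one _).symm
        _ ≤ _ := pow_le_pow_right₀ hl1' hd
    have e4 : (2:ℝ) ^ (((k : ℝ) + 1) * (a / d)) ≤ 2 ^ (-(β * k)) * 2 ^ ((k:ℝ) + 1) := by
      rw [← Real.rpow_add (by norm_num)]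
      apply two_rpow_mono
      have h2 : a / d = 1 - 6 * β := by
        rw [div_eq_iff hd'.ne', ha]; linarith
      rw [h2]
      have : (0:ℝ) ≤ k := Nat.cast_nonneg k
      nlinarith
    have e5 : 2 * 2 ^ d ≤ dl * l := by
      rw [div_le_iff₀ hdl0] at hl6
      linarith
    rw [e1, one_mul]
    calc (2:ℝ) ^ (((k : ℝ) + 1) * (a / d)) ≤ 2 ^ (-(β * k)) * 2 ^ ((k:ℝ) + 1) := e4
      _ ≤ 2 ^ (-(β * k)) * (2 ^ d * 2 ^ (d * (k / d))) := by gcongr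
      _ = 2 ^ (-(β * k)) * ((2 * 2 ^ d) * 2 ^ (d * (k / d))) / 2 := by ring
      _ ≤ 2 ^ (-(β * k)) * ((dl * l) * 2 ^ (d * (k / d))) / 2 := by gcongr
      _ ≤ 2 ^ (-(β * k)) * ((dl * l ^ d) * 2 ^ (d * (k / d))) / 2 := by gcongr
      _ = dl * 2 ^ (-(β * k)) * (l ^ d * 2 ^ (d * (k / d))) / 2 := by ring
  · refine (base hd hlam hΘ hΓ0 ht (by linarith) hG1 hG2).trans ?_
    have e1 : 40 * Θ ^ 2 / l ≤ η / 3 := by
      rw [div_le_iff₀ hη] at hl3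
      rw [div_le_div_iff₀ hl0 (by norm_num)]
      linarith
    have e2 : 2 * Θ * 4 ^ d * Γ / l ≤ η / 3 := by
      rw [div_le_iff₀ hη] at hl5
      rw [div_le_div_iff₀ hl0 (by norm_num)]
      linarith
    linarith
  · intro n
    have hterm : ∀ k ∈ Finset.range n,
        lvlErr2 d σ lam Θ t l (fun k => dl * 2 ^ (-(β * k)))
          (fun k => 1 * 2 ^ ((k : ℝ) * (a / d))) k ≤ (η / Q) * r ^ k := by
      intro k _
      unfold lvlErr2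
      simp only [one_mul]
      have hdam := damage hd h0 hlam hΘ hΓ0 ht hl1' hβ0 hG2 a ha2 had k
      have hexp := expo hd h0 hlam hΘ hΓ0 hdl0 ht hl1' hG1 a ha1 k
      have hc : (((k + 1 : ℕ) : ℝ)) = (k:ℝ) + 1 := by push_cast; rfl
      rw [hc]
      rw [hrk] at hdam hexp ⊢
      have hq : 0 < r ^ k := pow_pos hr0 k
      have t1 : 2 * (dl * r ^ k) ≤ η / (3 * Q) * r ^ k := by
        calc 2 * (dl * r ^ k) = (2 * dl) * r ^ k := by ring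
          _ ≤ _ := mul_le_mul_of_nonneg_right hdl2 hq.le
      have t2 : 16 * d * Θ * 2 ^ σ / (Γ * dl) * r ^ k ≤ η / (3 * Q) * r ^ k :=
        mul_le_mul_of_nonneg_right hΓ1 hq.le
      have t3 : 16 * Θ * 4 ^ d * Γ / l * r ^ k ≤ η / (3 * Q) * r ^ k := by
        refine mul_le_mul_of_nonneg_right ?_ hq.le
        rw [div_le_iff₀ hη] at hl4
        rw [div_le_div_iff₀ hl0 (by positivity)]
        linarith
      have t4 : η / Q * r ^ k = η / (3 * Q) * r ^ k + η / (3 * Q) * r ^ k +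
          η / (3 * Q) * r ^ k := by
        field_simp
        norm_num
      rw [t4]
      exact add_le_add (add_le_add t1 (hexp.trans t2)) (hdam.trans t3)
    refine (Finset.sum_le_sum hterm).trans ?_
    rw [← Finset.mul_sum]
    have := geo_sum hr0.le hr1 n
    rw [← hQ] at this
    calc η / Q * ∑ i ∈ Finset.range n, r ^ i ≤ η / Q * Q := by gcongr
      _ = η := by field_simp

end

end Pool.Agent.W358.LR.EL2
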