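import Pool.Agent.W805.LR.Stm2

/-!
# LR2-EW2: parameters of the windows, second version
-/

set_option autoImplicit false
set_option linter.all false
set_option linter.unusedSectionVars false

namespace Pool.Agent.W358.LR.EW2

open Finset Filter Topology Pool.Agent.W805.LR

noncomputable section

theorem exp_neg_le {x : ℝ} (hx : 0 < x) : Real.exp (-x) ≤ 1 / x := by
  rw [Real.exp_neg, ← one_div]
  apply one_div_le_one_div_of_le hx
  have := Real.add_one_le_exp x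
  linarith

theorem geom_le {r : ℝ} (h0 : 0 ≤ r) (h1 : r < 1) (n : ℕ) :
    ∑ i ∈ Finset.range n, r ^ i ≤ 1 / (1 - r) := by
  have h2 := (summable_geometric_of_lt_one h0 h1).sum_le_tsum (Finset.range n)
    (fun i _ => pow_nonneg h0 i)
  rw [tsum_geometric_of_lt_one h0 h1] at h2
  rw [one_div]
  exact h2

theorem win_le {n Θ t dl Q ε b : ℝ} (hn : 0 < n) (hΘ : 1 ≤ Θ) (ht : 0 < t) (hdl : 0 < dl)
    (hQ : 0 < Q) (hε : 0 < ε) (hb : 1 < b) (hb3 : b ^ 2 / 2 ≤ 3 / 4) (m : ℕ) :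
    winErr2 n Θ t (dl * (1 / b) ^ m) (Q * (2 * b ^ 2) ^ m / (t * ε * n ^ 2)) (ε * n / 2 ^ m) ≤
      (2 * dl + 32 * Θ / (Q * dl)) * (1 / b) ^ m + (4 * Θ * Q * ε) * (3 / 4) ^ m := by
  have hb0 : 0 < b := by linarith
  have hbm : 0 < b ^ m := pow_pos hb0 m
  have h2m : (0:ℝ) < 2 ^ m := by positivity
  unfold winErr2
  have e1 : t * (Q * (2 * b ^ 2) ^ m / (t * ε * n ^ 2)) * (ε * n / 2 ^ m) ^ 2
      = Q * ε * (b ^ 2 / 2) ^ m := by
    rw [mul_pow, div_pow, div_pow, ← pow_mul]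
    field_simp
  have e2 : t * (Q * (2 * b ^ 2) ^ m / (t * ε * n ^ 2)) * (ε * n / 2 ^ m / 2) * (dl * (1 / b) ^ m) * n
      / (16 * Θ) = Q * dl * b ^ m / (32 * Θ) := by
    rw [mul_pow, one_div, inv_pow, ← pow_mul]
    have : b ^ (2 * m) = b ^ m * b ^ m := by rw [← pow_add]; congr 1; ring
    rw [this]
    field_simp
    ring
  have e4 : Real.exp (-(t * (Q * (2 * b ^ 2) ^ m / (t * ε * n ^ 2)) * (ε * n / 2 ^ m / 2) *
      (dl * (1 / b) ^ m) * n / (16 * Θ))) ≤ 32 * Θ / (Q * dl) * (1 / b) ^ m := by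
    rw [e2]
    refine le_trans (exp_neg_le (by positivity)) (le_of_eq ?_)
    rw [one_div b, inv_pow]
    field_simp
  have e5 : 4 * Θ * (t * (Q * (2 * b ^ 2) ^ m / (t * ε * n ^ 2))) *
      (ε * n / 2 ^ m) ^ 2 ≤ (4 * Θ * Q * ε) * (3 / 4) ^ m := by
    have h1 : 4 * Θ * (t * (Q * (2 * b ^ 2) ^ m / (t * ε * n ^ 2))) *
      (ε * n / 2 ^ m) ^ 2 = 4 * Θ * (Q * ε * (b ^ 2 / 2) ^ m) := by
      rw [← e1]; ring
    rw [h1]
    have h3 : 4 * Θ * (Q * ε * (b ^ 2 / 2) ^ m) = (4 * Θ * Q * ε) * (b ^ 2 / 2) ^ m := by ring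
    rw [h3]
    apply mul_le_mul_of_nonneg_left _ (by positivity)
    exact pow_le_pow_left₀ (by positivity) hb3 m
  have h6 : 2 * (dl * (1 / b) ^ m) = 2 * dl * (1 / b) ^ m := by ring
  rw [h6]
  calc _ ≤ 2 * dl * (1 / b) ^ m + 32 * Θ / (Q * dl) * (1 / b) ^ m +
        (4 * Θ * Q * ε) * (3 / 4) ^ m := add_le_add (add_le_add le_rfl e4) e5
    _ = _ := by ring

theorem kap_sum {b Q c : ℝ} (hb : 1 < b) (hQ : 0 ≤ Q) (hc : 0 < c) (W : ℕ) :
    ∑ m ∈ range W, Q * (2 * b ^ 2) ^ m / c ≤ Q * (2 * b ^ 2) ^ W / c := by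
  have h1 : ∑ m ∈ range W, (2 * b ^ 2) ^ m ≤ (2 * b ^ 2) ^ W := by
    have hq : 2 ≤ 2 * b ^ 2 := by nlinarith
    rw [geom_sum_eq (by linarith)]
    rw [div_le_iff₀ (by linarith)]
    have : 0 < (2 * b ^ 2) ^ W := by positivity
    nlinarith
  rw [← Finset.sum_div, ← Finset.mul_sum]
  apply div_le_div_of_nonneg_right _ hc.le
  exact mul_le_mul_of_nonneg_left h1 hQ

set_option maxHeartbeats 4000000 in
theorem main : S_windows2 := by
  intro d σ lam Θ η a hd hσ hσa ha1 hlam hΘ hη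
  have hdr : (1:ℝ) ≤ d := by exact_mod_cast hd
  set gp : ℝ := (a - σ) / (4 * d) with hgp
  have hgp0 : 0 < gp := by
    apply div_pos (by linarith) (by linarith)
  have hgp1 : gp ≤ 1 / 4 := by
    rw [hgp, div_le_iff₀ (by linarith)]
    nlinarith
  have hgpd : gp * d = (a - σ) / 4 := by
    rw [hgp]; field_simp
  set b : ℝ := (2:ℝ) ^ (gp / 2) with hb
  have hb1 : 1 < b := Real.one_lt_rpow (by norm_num) (by linarith)
  have hb0 : 0 < b := by linarith
  have hb8 : b ^ 8 ≤ 2 := by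
    rw [hb, ← Real.rpow_natCast, ← Real.rpow_mul (by norm_num)]
    calc (2:ℝ) ^ (gp / 2 * ((8:ℕ):ℝ)) ≤ (2:ℝ) ^ (1:ℝ) := by
          apply Real.rpow_le_rpow_of_exponent_le (by norm_num)
          push_cast; linarith
      _ = 2 := Real.rpow_one 2
  have hb3 : b ^ 2 / 2 ≤ 3 / 4 := by
    have h4 : b ^ 4 ≤ 3 / 2 := by
      by_contra hcon
      push Not at hcon
      have : b ^ 8 = b ^ 4 * b ^ 4 := by ring
      nlinarith
    have h34 : b ^ 2 ≤ b ^ 4 := pow_le_pow_right₀ hb1.le (by norm_num)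
    linarith
  have hb2 : 2 * b ^ 2 = (2:ℝ) ^ (1 + gp) := by
    rw [hb, ← Real.rpow_natCast, ← Real.rpow_mul (by norm_num)]
    have : gp / 2 * ((2:ℕ):ℝ) = gp := by push_cast; ring
    rw [this, Real.rpow_add (by norm_num), Real.rpow_one]
  have hble : b ≤ 2 := by
    have : b ≤ b ^ 8 := le_self_pow₀ hb1.le (by norm_num)
    linarith
  set K : ℝ := 1 / (1 - 1 / b) with hK
  have hbi : 1 / b < 1 := by rw [div_lt_one hb0]; exact hb1
  have hbi0 : 0 < 1 / b := by positivity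
  have hK0 : 0 < K := by
    rw [hK]; apply one_div_pos.mpr; linarith
  set dl : ℝ := min 1 (η / (8 * K)) with hdl
  have hdl0 : 0 < dl := by positivity
  have hdl1 : dl ≤ 1 := min_le_left _ _
  have hdlK : 2 * dl * K ≤ η / 4 := by
    have : dl ≤ η / (8 * K) := min_le_right _ _
    rw [le_div_iff₀ (by positivity)] at this
    linarith
  have hΘ0 : 0 < Θ := by linarith
  set Q : ℝ := 128 * Θ * K / (dl * η) with hQ
  have hQ0 : 0 < Q := by positivity
  have hQK : 32 * Θ / (Q * dl) * K = η / 4 := by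
    rw [hQ]; field_simp; norm_num
  set ε : ℝ := min (dl / 2) (η / (64 * Θ * Q)) with hε
  have hε0 : 0 < ε := by positivity
  have hεd : ε ≤ dl / 2 := min_le_left _ _
  have hε1 : ε ≤ 1 := by linarith
  have hεQ : 4 * (4 * Θ * Q * ε) ≤ η / 4 := by
    have : ε ≤ η / (64 * Θ * Q) := min_le_right _ _
    rw [le_div_iff₀ (by positivity)] at this
    linarith
  refine ⟨ε, hε0, hε1, ?_⟩
  intro s0 l0' t hs0 hl0' ht
  obtain ⟨l0, hl0e⟩ : ∃ l0 : ℝ, l0 = l0' ^ d := ⟨_, rfl⟩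
  have hl0 : 1 ≤ l0 := by rw [hl0e]; exact one_le_pow₀ hl0'
  -- choice of L0
  set c1 : ℝ := (3 / 4) * (a - σ) with hc1
  have hc10 : 0 < c1 := by rw [hc1]; linarith
  set C0 : ℝ := 4 * l0 ^ 2 * Q / (t * ε) with hC0
  have hC00 : 0 < C0 := by positivity
  have hlim : ∀ᶠ x : ℝ in atTop, x ^ (-c1) < lam / 2 / C0 :=
    (tendsto_rpow_neg_atTop hc10).eventually_lt_const (by positivity)
  have hlimN : ∀ᶠ L : ℕ in atTop, (L:ℝ) ^ (-c1) < lam / 2 / C0 :=
    (tendsto_natCast_atTop_atTop (R := ℝ)).eventually hlim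
  obtain ⟨N, hN⟩ := eventually_atTop.mp hlimN
  refine ⟨max N 1, ?_⟩
  intro L hL l I hl1 hll0 hLI
  have hLN : (L:ℝ) ^ (-c1) < lam / 2 / C0 := hN L (le_trans (le_max_left _ _) hL)
  have hL1 : 1 ≤ L := le_trans (le_max_right _ _) hL
  have hx1 : (1:ℝ) ≤ L := by exact_mod_cast hL1
  set x : ℝ := (L:ℝ) with hx
  have hx0 : 0 < x := by linarith
  set n : ℝ := x ^ d with hn
  have hn0 : 0 < n := by positivity
  have hrhs : 0 < s0 * 2 ^ ((I:ℝ) * a) := by positivity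
  have hex : ∃ W : ℕ, ε * n / 2 ^ W ≤ s0 * 2 ^ ((I:ℝ) * a) := by
    obtain ⟨W, hW⟩ := pow_unbounded_of_one_lt (ε * n / (s0 * 2 ^ ((I:ℝ) * a))) (by norm_num : (1:ℝ) < 2)
    refine ⟨W, ?_⟩
    rw [div_lt_iff₀ hrhs] at hW
    rw [div_le_iff₀ (by positivity)]
    linarith
  classical
  set Wn := Nat.find hex with hWn
  refine ⟨Wn, fun m => Q * (2 * b ^ 2) ^ m / (t * ε * n ^ 2), fun m => dl * (1 / b) ^ m,
    Nat.find_spec hex, ?_, ?_, ?_⟩
  · -- sum of the rates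
    have hR : 0 ≤ lam / 2 * x ^ (-((d : ℝ) + σ)) := by positivity
    rcases Nat.eq_zero_or_pos Wn with h0 | h0
    · rw [h0, Finset.sum_range_zero]
      exact hR
    · refine le_trans (kap_sum hb1 hQ0.le (by positivity) Wn) ?_
      have hmin := Nat.find_min hex (m := Wn - 1) (by omega)
      push Not at hmin
      have h2W : (2:ℝ) ^ Wn ≤ 2 * n / 2 ^ ((I:ℝ) * a) := by
        rw [lt_div_iff₀ (by positivity)] at hmin
        rw [le_div_iff₀ (by positivity)]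
        have e1 : (2:ℝ) ^ Wn = 2 * 2 ^ (Wn - 1) := by
          rw [← pow_succ']; congr 1; omega
        rw [e1]
        have e2 : (2:ℝ) ^ ((I:ℝ) * a) * 2 ^ (Wn - 1) ≤ s0 * 2 ^ ((I:ℝ) * a) * 2 ^ (Wn - 1) := by
          have h0' : 0 ≤ (2:ℝ) ^ ((I:ℝ) * a) * 2 ^ (Wn - 1) := by positivity
          calc (2:ℝ) ^ ((I:ℝ) * a) * 2 ^ (Wn - 1) = 1 * ((2:ℝ) ^ ((I:ℝ) * a) * 2 ^ (Wn - 1)) :=
                (one_mul _).symm
            _ ≤ s0 * ((2:ℝ) ^ ((I:ℝ) * a) * 2 ^ (Wn - 1)) := mul_le_mul_of_nonneg_right hs0 h0'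
            _ = _ := by ring
        have e3 : ε * n ≤ n := mul_le_of_le_one_left hn0.le hε1
        calc 2 * (2:ℝ) ^ (Wn - 1) * 2 ^ ((I:ℝ) * a)
            = 2 * ((2:ℝ) ^ ((I:ℝ) * a) * 2 ^ (Wn - 1)) := by ring
          _ ≤ 2 * n := by linarith
      have h2I : x ^ a ≤ l0 * 2 ^ ((I:ℝ) * a) := by
        rw [← hLI, Real.mul_rpow (by linarith) (by positivity)]
        have e1 : ((2:ℝ) ^ I) ^ a = 2 ^ ((I:ℝ) * a) := by
          rw [← Real.rpow_natCast, ← Real.rpow_mul (by norm_num)]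
        rw [e1]
        apply mul_le_mul_of_nonneg_right _ (by positivity)
        calc l ^ a ≤ l ^ (d:ℝ) := Real.rpow_le_rpow_of_exponent_le hl1 ha1
          _ = l ^ d := Real.rpow_natCast l d
          _ ≤ l0' ^ d := pow_le_pow_left₀ (by linarith) hll0 d
          _ = l0 := hl0e.symm
      have h3 : (2:ℝ) ^ Wn ≤ 2 * l0 * x ^ ((d:ℝ) - a) := by
        refine le_trans h2W ?_
        rw [div_le_iff₀ (by positivity)]
        have e1 : n = x ^ ((d:ℝ) - a) * x ^ a := by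
          rw [← Real.rpow_add hx0, hn, ← Real.rpow_natCast]
          congr 1
          ring
        rw [e1]
        have e2 : 0 ≤ x ^ ((d:ℝ) - a) := by positivity
        have e3 := mul_le_mul_of_nonneg_left h2I e2
        linarith
      have h4 : (2 * b ^ 2) ^ Wn ≤ 4 * l0 ^ 2 * x ^ (((d:ℝ) - a) * (1 + gp)) := by
        have e1 : (2 * b ^ 2) ^ Wn = ((2:ℝ) ^ Wn) ^ (1 + gp) := by
          rw [hb2, Real.rpow_pow_comm (by norm_num)]
        rw [e1]
        calc ((2:ℝ) ^ Wn) ^ (1 + gp) ≤ (2 * l0 * x ^ ((d:ℝ) - a)) ^ (1 + gp) :=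
              Real.rpow_le_rpow (by positivity) h3 (by linarith)
          _ = (2 * l0) ^ (1 + gp) * x ^ (((d:ℝ) - a) * (1 + gp)) := by
              rw [Real.mul_rpow (by positivity) (by positivity), ← Real.rpow_mul hx0.le]
          _ ≤ 4 * l0 ^ 2 * x ^ (((d:ℝ) - a) * (1 + gp)) := by
              apply mul_le_mul_of_nonneg_right _ (by positivity)
              calc (2 * l0) ^ (1 + gp) ≤ (2 * l0) ^ (2:ℝ) :=
                    Real.rpow_le_rpow_of_exponent_le (by linarith) (by linarith)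
                _ = 4 * l0 ^ 2 := by
                    rw [Real.rpow_two]; ring
      have h5 : x ^ (((d:ℝ) - a) * (1 + gp)) ≤ x ^ (-((d : ℝ) + σ)) * x ^ (-c1) * n ^ 2 := by
        have e1 : n ^ 2 = x ^ (2 * (d:ℝ)) := by
          rw [hn, ← pow_mul, ← Real.rpow_natCast]
          congr 1
          push_cast; ring
        rw [e1, ← Real.rpow_add hx0, ← Real.rpow_add hx0]
        apply Real.rpow_le_rpow_of_exponent_le hx1
        rw [hc1]
        have : gp * a ≥ 0 := by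
          have : 0 < a := by linarith
          positivity
        linarith
      have h6 : Q * (2 * b ^ 2) ^ Wn / (t * ε * n ^ 2) ≤ C0 * x ^ (-c1) * x ^ (-((d : ℝ) + σ)) := by
        rw [div_le_iff₀ (by positivity)]
        calc Q * (2 * b ^ 2) ^ Wn ≤ Q * (4 * l0 ^ 2 * (x ^ (-((d : ℝ) + σ)) * x ^ (-c1) * n ^ 2)) := by
              apply mul_le_mul_of_nonneg_left _ hQ0.le
              refine le_trans h4 ?_
              exact mul_le_mul_of_nonneg_left h5 (by positivity)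
          _ = C0 * x ^ (-c1) * x ^ (-((d : ℝ) + σ)) * (t * ε * n ^ 2) := by
              rw [hC0]; field_simp
      refine le_trans h6 ?_
      apply mul_le_mul_of_nonneg_right _ (by positivity)
      rw [lt_div_iff₀ hC00] at hLN
      linarith
  · intro m
    refine ⟨by positivity, by positivity, ?_⟩
    have h1 : (1 / 2:ℝ) ^ m ≤ (1 / b) ^ m := by
      apply pow_le_pow_left₀ (by norm_num)
      exact one_div_le_one_div_of_le hb0 hble
    calc ε * n / 2 ^ m = ε * (1 / 2) ^ m * n := by rw [one_div, inv_pow]; ring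
      _ ≤ (dl / 2) * (1 / b) ^ m * n := by
          apply mul_le_mul_of_nonneg_right _ hn0.le
          exact mul_le_mul hεd h1 (by positivity) (by positivity)
      _ = dl * (1 / b) ^ m * n / 2 := by ring
  · refine le_trans (Finset.sum_le_sum (fun m _ => win_le hn0 hΘ ht hdl0 hQ0 hε0 hb1 hb3 m)) ?_
    rw [Finset.sum_add_distrib, ← Finset.mul_sum, ← Finset.mul_sum]
    have g1 := geom_le hbi0.le hbi Wn
    have g2 := geom_le (by norm_num : (0:ℝ) ≤ 3 / 4) (by norm_num) Wn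
    have g3 : (1:ℝ) / (1 - 3 / 4) = 4 := by norm_num
    rw [g3] at g2
    have g4 : 0 ≤ 2 * dl + 32 * Θ / (Q * dl) := by positivity
    have g5 : 0 ≤ 4 * Θ * Q * ε := by positivity
    calc (2 * dl + 32 * Θ / (Q * dl)) * ∑ i ∈ range Wn, (1 / b) ^ i +
          4 * Θ * Q * ε * ∑ i ∈ range Wn, (3 / 4) ^ i
        ≤ (2 * dl + 32 * Θ / (Q * dl)) * K + 4 * Θ * Q * ε * 4 :=
          add_le_add (mul_le_mul_of_nonneg_left g1 g4) (mul_le_mul_of_nonneg_left g2 g5)
      _ = 2 * dl * K + 32 * Θ / (Q * dl) * K + 4 * (4 * Θ * Q * ε) := by ring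
      _ ≤ η := by linarith

end

end Pool.Agent.W358.LR.EW2
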